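import Pool.Agent.H2.PX.Thin
import Pool.Agent.H2.PX.Interface

/-!
# The forcing notion and its properties
-/

open Set

namespace H2.PX
open H9.PF (W Lim LadF Unb exists_bound exists_bound' exists_gt' exists_closed dp dp_mono dp_unb)
open H85.Forcing H85.Forcing.RO

/-- the forcing notion: finite consistent sets of facts, ordered by reverse inclusion -/
def PP : Type := {p : Cd // Cnd p}

instance : Preorder PP where
  le q p := p.1 ⊆ q.1
  le_refl p := subset_rfl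
  le_trans _ _ _ h h' := h'.trans h

theorem PP.le_def {q p : PP} : q ≤ p ↔ p.1 ⊆ q.1 := Iff.rfl

/-- the Boolean value of `x ∈ L_α` for the Cohen ladder system `L` -/
def LL (α x : W) : RO PP := regl fun p => Fact.l α x ∈ p.1

/-- the Boolean value of `x ∈ B_i` at the coordinate `ν` -/
def BB (ν : Nm) (i : ℕ) (x : W) : RO PP := regl fun p => Fact.c false ν i x ∈ p.1

theorem forces_fact {f : Fact} {p : PP} :
    (p ∈ regl fun p : PP => f ∈ p.1) ↔ ∀ q ≤ p, ∃ r ≤ q, f ∈ r.1 := by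
  rw [forces_regl]
  constructor
  · intro h q hq
    obtain ⟨r, hr, s, hs, hrs⟩ := h q hq
    exact ⟨r, hr, hrs hs⟩
  · intro h q hq
    obtain ⟨r, hr, hr2⟩ := h q hq
    exact ⟨r, hr, r, hr2, le_rfl⟩

theorem forces_LL {p : PP} {α x : W} : p ∈ LL α x ↔ ∀ q ≤ p, ∃ r ≤ q, Fact.l α x ∈ r.1 :=
  forces_fact

theorem forces_BB {p : PP} {ν : Nm} {i : ℕ} {x : W} :
    p ∈ BB ν i x ↔ ∀ q ≤ p, ∃ r ≤ q, Fact.c false ν i x ∈ r.1 := forces_fact

theorem LL_of_mem {p : PP} {α x : W} (h : Fact.l α x ∈ p.1) : p ∈ LL α x :=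
  forces_LL.2 fun q hq => ⟨q, le_rfl, hq h⟩

theorem BB_of_mem {p : PP} {ν : Nm} {i : ℕ} {x : W} (h : Fact.c false ν i x ∈ p.1) :
    p ∈ BB ν i x := forces_BB.2 fun q hq => ⟨q, le_rfl, hq h⟩

/-- the point in a fact -/
def Fact.pt : Fact → W
  | .l _ x => x
  | .c _ _ _ x => x
  | .s _ _ e => e

/-- the index in a fact -/
def Fact.ix : Fact → ℕ
  | .l _ _ => 0
  | .c _ _ i _ => i
  | .s _ i _ => i

/-- adding a point of a Cohen ladder -/
theorem exists_add_l (p : PP) {α x : W} (hα : Lim α) (hx : x < α)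
    (h : ∀ y, Fact.l α y ∈ p.1 → dp α y ≠ dp α x) : ∃ q ≤ p, q.1 = insert (Fact.l α x) p.1 := by
  have hm : ∀ f, f ∈ insert (Fact.l α x) p.1 ↔ f = Fact.l α x ∨ f ∈ p.1 := fun f =>
    Finset.mem_insert
  have hs : p.1 ⊆ insert (Fact.l α x) p.1 := Finset.subset_insert _ _
  refine ⟨⟨insert (Fact.l α x) p.1, ⟨⟨?_, ?_, ?_, ?_, ?_, ?_⟩, ?_⟩⟩, hs, rfl⟩
  · intro β y z hy hz hyz
    rcases (hm _).1 hy with uy | uy <;> rcases (hm _).1 hz with uz | uz
    · rw [Fact.l.injEq] at uy uz; rw [uy.2, uz.2]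
    · rw [Fact.l.injEq] at uy
      obtain ⟨rfl, rfl⟩ := uy
      exact absurd hyz.symm (h z uz)
    · rw [Fact.l.injEq] at uz
      obtain ⟨rfl, rfl⟩ := uz
      exact absurd hyz (h y uy)
    · exact p.2.1.fl β y z uy uz hyz
  · intro β y hy
    rcases (hm _).1 hy with uy | uy
    · rw [Fact.l.injEq] at uy
      obtain ⟨rfl, rfl⟩ := uy
      exact ⟨hα, hx⟩
    · exact p.2.1.ll β y uy
  · intro t ν i y hy
    exact p.2.1.lc t ν i y (((hm _).1 hy).resolve_left (by simp))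
  · intro ν i e hy
    exact p.2.1.ls ν i e (((hm _).1 hy).resolve_left (by simp))
  · intro ν i e hy hz
    exact p.2.1.ne ν i e (((hm _).1 hy).resolve_left (by simp))
      (((hm _).1 hz).resolve_left (by simp))
  · intro ν i e t y hy hz hlt
    exact (p.2.1.con ν i e t y (((hm _).1 hy).resolve_left (by simp))
      (((hm _).1 hz).resolve_left (by simp)) hlt).mono hs
  · intro f hf
    rcases (hm _).1 hf with rfl | hf
    · trivial
    · exact p.2.2 f hf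

/-- adding a point of `B_i` above everything -/
theorem exists_add_b (p : PP) {ν : Nm} (hν : HG ν) (i : ℕ) {x : W} (hxl : Lim x)
    (hx : ∀ f ∈ p.1, f.pt < x) : ∃ q ≤ p, q.1 = insert (Fact.c false ν i x) p.1 := by
  have hm : ∀ f, f ∈ insert (Fact.c false ν i x) p.1 ↔ f = Fact.c false ν i x ∨ f ∈ p.1 :=
    fun f => Finset.mem_insert
  have hs : p.1 ⊆ insert (Fact.c false ν i x) p.1 := Finset.subset_insert _ _
  refine ⟨⟨insert (Fact.c false ν i x) p.1, ⟨⟨?_, ?_, ?_, ?_, ?_, ?_⟩, ?_⟩⟩, hs, rfl⟩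
  · intro β y z hy hz
    exact p.2.1.fl β y z (((hm _).1 hy).resolve_left (by simp))
      (((hm _).1 hz).resolve_left (by simp))
  · intro β y hy
    exact p.2.1.ll β y (((hm _).1 hy).resolve_left (by simp))
  · intro t μ j y hy
    rcases (hm _).1 hy with uy | uy
    · rw [Fact.c.injEq] at uy
      rw [uy.2.2.2]; exact hxl
    · exact p.2.1.lc t μ j y uy
  · intro μ j e hy
    exact p.2.1.ls μ j e (((hm _).1 hy).resolve_left (by simp))
  · intro μ j e hy hz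
    exact p.2.1.ne μ j e (((hm _).1 hy).resolve_left (by simp))
      (((hm _).1 hz).resolve_left (by simp))
  · intro μ j e t y hy hz hlt
    have hy' := ((hm _).1 hy).resolve_left (by simp)
    rcases (hm _).1 hz with uz | uz
    · rw [Fact.c.injEq] at uz
      obtain ⟨-, -, -, rfl⟩ := uz
      exact absurd (hx _ hy') (lt_asymm hlt)
    · exact (p.2.1.con μ j e t y hy' uz hlt).mono hs
  · intro f hf
    rcases (hm _).1 hf with rfl | hf
    · exact hν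
    · exact p.2.2 f hf

/-- adding a promise with a fresh index -/
theorem exists_add_s (p : PP) {ν : Nm} (hν : HG ν) {α : W} (hα : Lim α) :
    ∃ q ≤ p, ∃ i, Fact.s ν i α ∈ q.1 := by
  let i := p.1.sup Fact.ix + 1
  have hi : ∀ f ∈ p.1, f.ix ≠ i := fun f hf => by
    have : f.ix ≤ p.1.sup Fact.ix := Finset.le_sup (f := Fact.ix) hf
    omega
  have hm : ∀ f, f ∈ insert (Fact.s ν i α) p.1 ↔ f = Fact.s ν i α ∨ f ∈ p.1 :=
    fun f => Finset.mem_insert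
  have hs : p.1 ⊆ insert (Fact.s ν i α) p.1 := Finset.subset_insert _ _
  refine ⟨⟨insert (Fact.s ν i α) p.1, ⟨⟨?_, ?_, ?_, ?_, ?_, ?_⟩, ?_⟩⟩, hs, i,
    Finset.mem_insert_self _ _⟩
  · intro β y z hy hz
    exact p.2.1.fl β y z (((hm _).1 hy).resolve_left (by simp))
      (((hm _).1 hz).resolve_left (by simp))
  · intro β y hy
    exact p.2.1.ll β y (((hm _).1 hy).resolve_left (by simp))
  · intro t μ j y hy
    exact p.2.1.lc t μ j y (((hm _).1 hy).resolve_left (by simp))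
  · intro μ j e hy
    rcases (hm _).1 hy with uy | uy
    · rw [Fact.s.injEq] at uy
      rw [uy.2.2]; exact hα
    · exact p.2.1.ls μ j e uy
  · intro μ j e hy hz
    have hz' := ((hm _).1 hz).resolve_left (by simp)
    rcases (hm _).1 hy with uy | uy
    · rw [Fact.s.injEq] at uy
      obtain ⟨-, h1, -⟩ := uy
      exact hi _ hz' h1
    · exact p.2.1.ne μ j e uy hz'
  · intro μ j e t y hy hz hlt
    have hz' := ((hm _).1 hz).resolve_left (by simp)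
    rcases (hm _).1 hy with uy | uy
    · rw [Fact.s.injEq] at uy
      obtain ⟨-, h1, -⟩ := uy
      exact absurd h1 (hi _ hz')
    · exact (p.2.1.con μ j e t y uy hz' hlt).mono hs
  · intro f hf
    rcases (hm _).1 hf with rfl | hf
    · exact hν
    · exact p.2.2 f hf

/-- ranks are bounded -/
theorem exists_top : ∃ τ : Ordinal.{0}, ∀ p : Cd, Cnd p → Cs τ p := by
  refine ⟨⨆ ν : Nm, Order.succ (rho ν), fun p hp => ⟨hp, fun f _ => ?_⟩⟩
  have h : ∀ ν : Nm, rho ν < ⨆ ν : Nm, Order.succ (rho ν) := fun ν =>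
    (Order.lt_succ _).trans_le (Ordinal.le_iSup (fun ν : Nm => Order.succ (rho ν)) ν)
  cases f with
  | l => trivial
  | c t ν => exact h ν
  | s ν => exact h ν

section
variable (H : ∀ τ, HitAt τ)
include H

theorem hit_PP (F : W → PP × W) (hF : ∀ ξ, ξ < (F ξ).2) (g : W → W) :
    ∃ α, Lim α ∧ (∀ γ < α, g γ < α) ∧ ∃ q : PP, ∀ q' ≤ q, ∀ γ < α,
      ∃ ξ, γ < (F ξ).2 ∧ (F ξ).2 < α ∧ ∃ r ≤ q', r ≤ (F ξ).1 ∧ r ∈ LL α (F ξ).2 := by
  obtain ⟨τ, hτ⟩ := exists_top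
  obtain ⟨α, h1, h2, q, h3, h4⟩ := H τ (fun ξ => ((F ξ).1.1, (F ξ).2))
    (fun ξ => ⟨hτ _ (F ξ).1.2, hF ξ⟩) g
  refine ⟨α, h1, h2, ⟨q, h3.1⟩, fun q' hq' γ hγ => ?_⟩
  obtain ⟨ξ, k1, k2, r, k3, k4, k5, k6⟩ := h4 q'.1 (hτ _ q'.2) hq' γ hγ
  exact ⟨ξ, k1, k2, ⟨r, k3.1⟩, k4, k5, LL_of_mem (p := ⟨r, k3.1⟩) k6⟩

theorem ccc_PP (A : Set PP) (hA : ∀ p ∈ A, ∀ q ∈ A, (∃ r, r ≤ p ∧ r ≤ q) → p = q) :
    A.Countable := by
  by_contra hc
  have h1 : Cardinal.mk W ≤ Cardinal.mk A := by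
    have h2 : Cardinal.aleph0 < Cardinal.mk A := by
      rw [← Cardinal.le_aleph0_iff_set_countable] at hc
      exact not_le.1 hc
    have h3 : Cardinal.mk W = Cardinal.aleph 1 := by simp
    rw [h3, ← Cardinal.succ_aleph0]
    exact Order.succ_le_of_lt h2
  obtain ⟨f⟩ := (Cardinal.le_def _ _).1 h1
  choose sc hsc using exists_gt'
  obtain ⟨α, hα, -, q, hq⟩ := hit_PP H (fun ξ => ((f ξ).1, sc ξ)) (fun ξ => hsc ξ) (fun ξ => ξ)
  obtain ⟨γ, hγ⟩ := hα.1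
  obtain ⟨ξ, -, k2, r, k3, k4, -⟩ := hq q le_rfl γ hγ
  obtain ⟨ζ, l1, l2, s, l3, l4, -⟩ := hq r k3 _ k2
  have h5 : (f ξ).1 = (f ζ).1 := hA _ (f ξ).2 _ (f ζ).2 ⟨s, l3.trans k4, l4⟩
  have h6 : ξ = ζ := f.injective (Subtype.ext h5)
  rw [h6] at l1
  exact lt_irrefl _ l1

end

/-! ### the Cohen ladder system -/

theorem exists_add_l' (p : PP) {α : W} (hα : Lim α) (n : ℕ) :
    ∃ q ≤ p, ∃ x < α, n < dp α x ∧ Fact.l α x ∈ q.1 := by
  obtain ⟨x, hx, h⟩ := dp_unb hα (max n (p.1.sup fun u => dp α u.pt))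
  obtain ⟨q, hq, e⟩ := exists_add_l p hα hx (fun y hy => by
    have h1 : dp α y ≤ p.1.sup fun u => dp α u.pt :=
      Finset.le_sup (f := fun u : Fact => dp α u.pt) hy
    have := (le_max_right n (p.1.sup fun u => dp α u.pt)).trans_lt h
    omega)
  exact ⟨q, hq, x, hx, (le_max_left _ _).trans_lt h, e ▸ Finset.mem_insert_self _ _⟩

theorem LL_cof (α : W) (hα : Lim α) (γ : W) (_ : γ < α) (p : PP) :
    ∃ q ≤ p, ∃ x, γ < x ∧ q ∈ LL α x := by
  obtain ⟨q, hq, x, hx, h, hm⟩ := exists_add_l' p hα (dp α γ)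
  refine ⟨q, hq, x, ?_, LL_of_mem hm⟩
  by_contra hcon
  have := dp_mono hα ‹γ < α› (not_lt.1 hcon)
  omega

theorem LL_lad : LadF LL := by
  intro α hα η hη p
  have key : ∀ m, ∃ q ≤ p, ∀ x < α, dp α x < m → ∃ y, Fact.l α y ∈ q.1 ∧ dp α y = dp α x := by
    intro m
    induction m with
    | zero => exact ⟨p, le_rfl, fun x _ h => absurd h (Nat.not_lt_zero _)⟩
    | succ m ih =>
      obtain ⟨q, hq, h⟩ := ih
      by_cases hh : ∃ x < α, dp α x = m ∧ ∀ y, Fact.l α y ∈ q.1 → dp α y ≠ dp α x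
      · obtain ⟨x, hx, hxm, hy⟩ := hh
        obtain ⟨r, hr, e⟩ := exists_add_l q hα hx hy
        refine ⟨r, hr.trans hq, fun z hz hzm => ?_⟩
        rcases Nat.lt_succ_iff_lt_or_eq.1 hzm with h1 | h1
        · obtain ⟨y, hy1, hy2⟩ := h z hz h1
          exact ⟨y, hr hy1, hy2⟩
        · exact ⟨x, e ▸ Finset.mem_insert_self _ _, hxm.trans h1.symm⟩
      · push Not at hh
        refine ⟨q, hq, fun z hz hzm => ?_⟩
        rcases Nat.lt_succ_iff_lt_or_eq.1 hzm with h1 | h1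
        · exact h z hz h1
        · exact hh z hz h1
  obtain ⟨q, hq, h⟩ := key (dp α η + 1)
  classical
  refine ⟨q, hq, (q.1.filter (fun f => ∃ y, f = Fact.l α y)).image Fact.pt, fun x hx => ?_⟩
  have hw : x ∈ (q.1.filter (fun f => ∃ y, f = Fact.l α y)).image Fact.pt ↔
      Fact.l α x ∈ q.1 := by
    rw [Finset.mem_image]
    constructor
    · rintro ⟨f, hf, rfl⟩
      obtain ⟨h1, y, rfl⟩ := Finset.mem_filter.1 hf
      exact h1
    · intro h1
      exact ⟨Fact.l α x, Finset.mem_filter.2 ⟨h1, x, rfl⟩, rfl⟩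
  rw [hw]
  refine ⟨LL_of_mem, fun hx' => ?_⟩
  rw [forces_compl]
  intro r hr hrx
  obtain ⟨s, hs, h1⟩ := forces_LL.1 hrx r le_rfl
  obtain ⟨y, hy1, hy2⟩ := h x (hx.trans hη) (Nat.lt_succ_of_le (dp_mono hα hη hx.le))
  have h2 : Fact.l α y ∈ s.1 := (hs.trans hr) hy1
  have h3 : y = x := s.2.1.fl α y x h2 h1 hy2
  exact hx' (h3 ▸ hy1)

/-! ### killing coherent sequences -/

theorem exists_max_antichain {P : Type*} [Preorder P] (D : Set P) :
    ∃ A ⊆ D, (∀ p ∈ A, ∀ q ∈ A, (∃ r, r ≤ p ∧ r ≤ q) → p = q) ∧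
      ∀ p ∈ D, ∃ a ∈ A, ∃ r, r ≤ p ∧ r ≤ a := by
  let Q : Set (Set P) := {A | A ⊆ D ∧ ∀ p ∈ A, ∀ q ∈ A, (∃ r, r ≤ p ∧ r ≤ q) → p = q}
  obtain ⟨A, hA⟩ : ∃ A, Maximal (· ∈ Q) A := by
    refine zorn_subset Q fun c hcQ hc => ⟨⋃₀ c, ⟨?_, ?_⟩, fun s hs => subset_sUnion_of_mem hs⟩
    · exact sUnion_subset fun s hs => (hcQ hs).1
    · rintro p ⟨s, hs, hp⟩ q ⟨s', hs', hq⟩ h
      rcases hc.total hs hs' with h' | h'
      · exact (hcQ hs').2 p (h' hp) q hq h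
      · exact (hcQ hs).2 p hp q (h' hq) h
  refine ⟨A, hA.prop.1, hA.prop.2, fun p hp => ?_⟩
  by_contra hcon
  push Not at hcon
  have h1 : insert p A ∈ Q := by
    refine ⟨insert_subset hp hA.prop.1, ?_⟩
    rintro x (rfl | hx) y (rfl | hy) ⟨r, h1, h2⟩
    · rfl
    · exact absurd h2 (hcon y hy r h1)
    · exact absurd h1 (hcon x hx r h2)
    · exact hA.prop.2 x hx y hy ⟨r, h1, h2⟩
  have h2 : p ∈ A := hA.le_of_ge h1 (subset_insert p A) (mem_insert p A)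
  exact hcon p h2 p le_rfl le_rfl

section
variable (H : ∀ τ, HitAt τ)
include H

/-- countably many conditions that decide a Boolean value -/
theorem exists_deciding (u : RO PP) : ∃ (c : ℕ → PP) (v : ℕ → Bool),
    (∀ k, v k = true → c k ∈ u) ∧ (∀ k, v k = false → c k ∈ uᶜ) ∧ ∀ p, ∃ k r, r ≤ p ∧ r ≤ c k := by
  classical
  let D : Set PP := {p | p ∈ u ∨ p ∈ uᶜ}
  obtain ⟨A, h1, h2, h3⟩ := exists_max_antichain D
  have hA : ∀ p, ∃ a ∈ A, ∃ r, r ≤ p ∧ r ≤ a := by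
    intro p
    by_cases hp : p ∈ uᶜ
    · exact h3 p (Or.inr hp)
    · rw [forces_compl] at hp
      push Not at hp
      obtain ⟨q, hq, hqu⟩ := hp
      obtain ⟨a, ha, r, hr1, hr2⟩ := h3 q (Or.inl hqu)
      exact ⟨a, ha, r, hr1.trans hq, hr2⟩
  have hne : A.Nonempty := by
    obtain ⟨a, ha, -⟩ := hA ⟨∅, Cnd.empty⟩
    exact ⟨a, ha⟩
  obtain ⟨c, hc⟩ := (ccc_PP H A h2).exists_eq_range hne
  have hcA : ∀ k, c k ∈ A := fun k => by rw [hc]; exact mem_range_self k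
  refine ⟨c, fun k => decide (c k ∈ u), fun k hk => of_decide_eq_true hk, fun k hk => ?_,
    fun p => ?_⟩
  · exact (h1 (hcA k)).resolve_left (of_decide_eq_false hk)
  · obtain ⟨a, ha, r, hr1, hr2⟩ := hA p
    rw [hc] at ha
    obtain ⟨k, rfl⟩ := ha
    exact ⟨k, r, hr1, hr2⟩

/-- the Boolean value of a status -/
def val (f g : W → W → Bool → RO PP) (j : Ix) : RO PP :=
  bif j.1 then f j.2.1 j.2.2.1 j.2.2.2 else g j.2.1 j.2.2.1 j.2.2.2

/-- a name for given rows -/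
theorem exists_nm (f g : W → W → Bool → RO PP) (hfg : Rows f g) : ∃ ν : Nm, HG ν ∧
    (∀ (p : PP) j, D p.1 ν j true → p ∈ val f g j) ∧
    (∀ (p : PP) j, D p.1 ν j false → p ∈ (val f g j)ᶜ) ∧
    ∀ (p : PP) j, ∃ q ≤ p, ∃ b, D q.1 ν j b := by
  choose c v hc1 hc2 hc3 using fun j : Ix => exists_deciding H (val f g j)
  obtain ⟨ν, hν1, hν2, hν3⟩ := exists_name (fun j k => (c j k).1) v
  have hsub : ∀ μ, Sub μ ν → HG μ := by
    intro μ hμ
    obtain ⟨j, k, u, hu, hu'⟩ := hν3 μ hμ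
    have h1 := (c j k).2.2 u hu
    cases u with
    | l => exact absurd trivial hu'
    | c t ρ i x =>
      have : ρ = μ := by
        by_contra h; exact hu' h
      exact this ▸ h1
    | s ρ i x =>
      have : ρ = μ := by
        by_contra h; exact hu' h
      exact this ▸ h1
  have htc : ∀ μ, tc ν μ → HG μ := by
    intro μ hμ
    cases hμ with
    | single h => exact hsub μ h
    | tail h h' => exact (hsub _ h').sub h
  have hD1 : ∀ (p : PP) j, D p.1 ν j true → p ∈ val f g j := by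
    rintro p j ⟨k, h1, h2⟩
    rw [hν2] at h1
    rw [hν1] at h2
    exact Forces.down (hc1 j k h1) h2
  have hD2 : ∀ (p : PP) j, D p.1 ν j false → p ∈ (val f g j)ᶜ := by
    rintro p j ⟨k, h1, h2⟩
    rw [hν2] at h1
    rw [hν1] at h2
    exact Forces.down (hc2 j k h1) h2
  have hD3 : ∀ (p : PP) j, ∃ q ≤ p, ∃ b, D q.1 ν j b := by
    intro p j
    obtain ⟨k, r, h1, h2⟩ := hc3 j p
    refine ⟨r, h1, v j k, k, hν2 j k, ?_⟩
    rw [hν1]
    exact h2
  refine ⟨ν, ?_, hD1, hD2, hD3⟩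
  -- conditions
  have up : ∀ {q}, Cn (tc ν) q → Cnd q := fun hq => ⟨hq.1, fun u hu => (hq.2 u hu).mono htc⟩
  have dn : ∀ {q : PP}, Cn (tc ν) (res (tc ν) q.1) := fun {q} => q.2.cn (closed_tc ν)
  have sr : ∀ {q : Cd} {q' : PP}, Cn (tc ν) q → q ⊆ q'.1 → q ⊆ res (tc ν) q'.1 :=
    fun hq h => sub_res h hq.2
  have am : ∀ {q' : PP} {r : Cd}, Cn (tc ν) r → res (tc ν) q'.1 ⊆ r → Cnd (r ∪ q'.1) :=
    fun {q' r} hr h => (up hr).union hr.2 q'.2 h
  have hno : ∀ (p : PP) j, D p.1 ν j true → D p.1 ν j false → False := fun p j h1 h2 =>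
    forces_compl.1 (hD2 p j h2) p le_rfl (hD1 p j h1)
  have main : Gd ν := by
    refine ⟨?_, ?_, ?_, ?_, ?_⟩
    · intro j q hq
      obtain ⟨r, hr, b, hb⟩ := hD3 ⟨q, up hq⟩ j
      exact ⟨res (tc ν) r.1, dn, sr hq hr, b, hb.res_tc⟩
    · intro j q hq h1 h2
      exact hno ⟨q, up hq⟩ j h1 h2
    · intro e δ he hδ hδe q hq h1
      obtain ⟨q', hq', h, hh, h2⟩ := hfg.cl e δ he hδ hδe ⟨q, up hq⟩ (hD2 ⟨q, up hq⟩ _ h1)
      refine ⟨res (tc ν) q'.1, dn, sr hq hq', h, hh, ?_⟩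
      intro y hy1 hy2 t r hr hqr hD
      have hr' := am hr hqr
      have h3 : (⟨r ∪ q'.1, hr'⟩ : PP) ∈ val f g (true, e, y, t) :=
        hD1 _ _ (hD.mono Finset.subset_union_left)
      exact forces_compl.1 (h2 y hy1 hy2 t) ⟨r ∪ q'.1, hr'⟩ Finset.subset_union_right h3
    · intro e δ he hδ hδe q hq h1
      obtain ⟨q', hq', h, hh, h2⟩ := hfg.coh e δ he hδ hδe ⟨q, up hq⟩ (hD1 ⟨q, up hq⟩ _ h1)
      refine ⟨res (tc ν) q'.1, dn, sr hq hq', h, hh, ?_⟩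
      intro y hy1 hy2 t b r hr hqr hD hD'
      have hr' := am hr hqr
      have h3 := h2 y hy1 hy2 t ⟨r ∪ q'.1, hr'⟩ Finset.subset_union_right
      have h4 := hD.mono (r := r ∪ q'.1) Finset.subset_union_left
      have h5 := hD'.mono (r := r ∪ q'.1) Finset.subset_union_left
      cases b with
      | true =>
        exact forces_compl.1 (hD2 ⟨r ∪ q'.1, hr'⟩ _ h5) _ le_rfl
          (h3.1 (hD1 ⟨r ∪ q'.1, hr'⟩ _ h4))
      | false =>
        exact forces_compl.1 (hD2 ⟨r ∪ q'.1, hr'⟩ _ h4) _ le_rfl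
          (h3.2 (hD1 ⟨r ∪ q'.1, hr'⟩ _ h5))
    · intro X hX hXl q hq
      obtain ⟨q', hq', δ, hδ, h2⟩ := hfg.nt X hX hXl ⟨q, up hq⟩
      refine ⟨res (tc ν) q'.1, dn, sr hq hq', δ, hδ, ?_⟩
      intro h hh r hr hqr
      have hr' := am hr hqr
      obtain ⟨s, hs, x, hx, hx1, hx2, hx3⟩ := h2 h hh ⟨r ∪ q'.1, hr'⟩ Finset.subset_union_right
      obtain ⟨u, hu, b, hb⟩ := hD3 s (false, δ, x, true)
      have hb' : b = false := by
        cases b with
        | false => rfl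
        | true => exact absurd (hD1 u _ hb) (forces_compl.1 hx3 u hu)
      subst hb'
      exact ⟨res (tc ν) u.1, dn, sr hr (Finset.subset_union_left.trans (show r ∪ q'.1 ⊆ u.1 from
        fun a ha => hu (hs ha))), x, hx,
        hx1, hx2, hb.res_tc⟩
  rintro μ (rfl | hμ)
  · exact main
  · exact htc μ hμ μ (Or.inl rfl)

theorem kill_PP (f g : W → W → Bool → RO PP) (hfg : Rows f g) : ∃ b : ℕ → W → RO PP,
    (∀ (i : ℕ) (γ : W) (p : PP), ∃ q ≤ p, ∃ x, γ < x ∧ q ∈ b i x) ∧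
    (∀ (i : ℕ) (x : W) (p : PP), p ∈ b i x → Lim x) ∧
    ∀ α, Lim α → ∀ p : PP, ∃ q ≤ p, ∃ i, ∀ x < α, q ∈ (b i x ⊓ f α x false)ᶜ := by
  obtain ⟨ν, hν, h1, h2, h3⟩ := exists_nm H f g hfg
  refine ⟨BB ν, fun i γ p => ?_, fun i x p hp => ?_, fun α hα p => ?_⟩
  · obtain ⟨b, hb⟩ := exists_bound (s := ((p.1.image Fact.pt : Finset W) : Set W) ∪ {γ})
      ((Finset.countable_toSet _).union (countable_singleton γ))
    obtain ⟨x, hxl, hbx, -⟩ := exists_closed (fun γ => γ) b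
    obtain ⟨q, hq, e⟩ := exists_add_b p hν i hxl fun u hu =>
      (hb _ (Or.inl (Finset.mem_coe.2 (Finset.mem_image_of_mem _ hu)))).trans hbx
    exact ⟨q, hq, x, (hb γ (Or.inr rfl)).trans hbx, BB_of_mem (e ▸ Finset.mem_insert_self _ _)⟩
  · obtain ⟨r, -, hr⟩ := forces_BB.1 hp p le_rfl
    exact r.2.1.lc _ _ _ _ hr
  · obtain ⟨q, hq, i, hi⟩ := exists_add_s p hν hα
    refine ⟨q, hq, i, fun x hx => ?_⟩
    rw [forces_compl]
    rintro r hr ⟨g1, g2⟩
    have g1 : r ∈ BB ν i x := g1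
    have g2 : r ∈ f α x false := g2
    obtain ⟨s, hs, g3⟩ := forces_BB.1 g1 r le_rfl
    have g4 : D s.1 ν (true, α, x, false) false :=
      s.2.1.con ν i α false x ((hs.trans hr) hi) g3 hx
    have g5 : s ∈ (f α x false)ᶜ := h2 s _ g4
    exact forces_compl.1 g5 s le_rfl (Forces.down g2 hs)

/-- **The forcing notion.** -/
theorem good2_of : Good2 PP LL where
  nonempty := ⟨⟨∅, Cnd.empty⟩⟩
  ccc := ccc_PP H
  L_lt := fun p α x h => by
    obtain ⟨r, -, h1⟩ := forces_LL.1 h p le_rfl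
    exact (r.2.1.ll α x h1).2
  L_cof := LL_cof
  L_fin := LL_lad
  hit := hit_PP H
  kill := kill_PP H

end

end H2.PX
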